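import Mathlib
import Pool.Agent.H55.FW.Stm

set_option autoImplicit false

/-! # Project FW (helper55), module fill (helper40): graded filling of a gap -/

namespace Pool.Agent.H40.FW

open Pool.Agent.W608.PR Pool.Agent.H55.FU Pool.Agent.H55.FV Pool.Agent.H55.FW

theorem Ir_mono (E : ℕ) (κ : ℕ → ℕ) (v : ℕ) {g g' : ℕ} (h : g ≤ g') : Ir E κ v g ≤ Ir E κ v g' := by
  cases v with
  | zero => exact le_rfl
  | succ v =>
    unfold Ir
    have := Nat.div_le_div_right (c := sz E (v + 1)) h
    omega

/-- the weights -/
theorem wt (E : ℕ) {m v M : ℕ} (hv : v ≤ m) (hM : M ≤ m) :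
    sz E v * sz E M ≤ sz E m * sz E (min v M) := by
  rcases le_total M v with h | h
  · rw [min_eq_right h]
    exact Nat.mul_le_mul_right _ (sz_mono E hv)
  · rw [min_eq_left h, mul_comm]
    exact Nat.mul_le_mul_right _ (sz_mono E hM)

theorem fill : S_fill := by
  intro E m κ ι _ M v J g hv
  induction v, hv using Nat.le_induction generalizing J g with
  | base =>
    intro hm hM _ _ hI
    have hq := sz_pos E hm
    have e1 : Ir E κ 1 g = g + 1 := by
      unfold Ir Ir
      rw [sz_one, Nat.div_one]
    rw [e1] at hI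
    have h1 : ∑ i ∈ J, sz E (M i) ≤ J.card * sz E m := by
      rw [← smul_eq_mul]
      exact Finset.sum_le_card_nsmul _ _ _ fun i hi => sz_mono E (hM i hi).2
    have h2 : g ≤ J.card := by
      have h3 : sz E m * (g + 1) ≤ sz E m * J.card := by
        rw [mul_comm (sz E m) J.card]
        exact hI.trans h1
      have := Nat.le_of_mul_le_mul_left h3 hq
      omega
    obtain ⟨J0, hJ0, hc⟩ := Finset.exists_subset_card_eq h2
    refine ⟨fun i => if i ∈ J0 then 1 else 0, ?_, ?_, ?_, ?_, ?_, ?_⟩
    · intro i
      simp only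
      split_ifs <;> omega
    · intro i hi
      have := (hM i hi).1
      simp only
      split_ifs <;> omega
    · intro i hi
      simp only
      rw [if_neg fun h => hi (hJ0 h)]
    · have h3 : ∀ i ∈ J, sz E (if i ∈ J0 then 1 else 0) = if i ∈ J0 then 1 else 0 := by
        intro i _
        split_ifs
        · exact sz_one E
        · exact sz_zero E
      rw [Finset.sum_congr rfl h3, ← Finset.sum_filter, Finset.sum_const, smul_eq_mul, mul_one, ← hc]
      congr 1
      ext i
      rw [Finset.mem_filter]
      exact ⟨fun h => h.2, fun h => ⟨hJ0 h, h⟩⟩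
    · intro w h3 h4
      omega
    · rw [e1]
      beta_reduce
      have h3 : (J.filter fun i => (if i ∈ J0 then 1 else 0) ≠ 0 ∧ (if i ∈ J0 then 1 else 0) ≠ M i) ⊆ J0 := by
        intro i hi
        rw [Finset.mem_filter] at hi
        by_contra hcon
        exact hi.2.1 (if_neg hcon)
      have := Finset.card_le_card h3
      omega
  | succ v hv ih =>
    intro hm hM hκ hg hI
    have hκg : κ (v + 1) ≤ g := hg (by omega)
    set q := sz E (v + 1) with hq
    have hq0 : 1 ≤ q := sz_pos E (by omega)
    have hsm : 1 ≤ sz E m := sz_pos E (by omega)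
    have hIr : Ir E κ (v + 1) g = (g / q + 1) + Ir E κ v (κ (v + 1) + q) := rfl
    rw [hIr] at hI ⊢
    set f : ι → ℕ := fun i => sz E (min (v + 1) (M i)) with hf
    have hfq : ∀ i ∈ J, f i ≤ q := fun i _ => sz_mono E (min_le_left _ _)
    have hw : ∀ i ∈ J, q * sz E (M i) ≤ sz E m * f i := fun i hi => wt E hm (hM i hi).2
    have hgq : g < q * (g / q + 1) := Nat.lt_mul_div_succ g hq0
    have hsum : g ≤ ∑ i ∈ J, f i := by
      have h1 : q * ∑ i ∈ J, sz E (M i) ≤ sz E m * ∑ i ∈ J, f i := by
        rw [Finset.mul_sum, Finset.mul_sum]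
        exact Finset.sum_le_sum hw
      have h2 : sz E m * (q * (g / q + 1)) ≤ sz E m * ∑ i ∈ J, f i := by
        refine le_trans ?_ h1
        calc sz E m * (q * (g / q + 1)) = q * (sz E m * (g / q + 1)) := by ring
          _ ≤ q * (sz E m * ((g / q + 1) + Ir E κ v (κ (v + 1) + q))) :=
              Nat.mul_le_mul_left _ (Nat.mul_le_mul_left _ (Nat.le_add_right _ _))
          _ ≤ q * ∑ i ∈ J, sz E (M i) := Nat.mul_le_mul_left _ hI
      have := Nat.le_of_mul_le_mul_left h2 hsm
      omega
    obtain ⟨J1, hJ1, hs1, hs2⟩ := greedy f q J hfq (g - κ (v + 1)) (by omega)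
    set s := ∑ i ∈ J1, f i with hs
    set J' := J \ J1 with hJ'
    have hsplit : ∀ F : ι → ℕ, ∑ i ∈ J1, F i + ∑ i ∈ J', F i = ∑ i ∈ J, F i := by
      intro F
      rw [add_comm, hJ']
      exact Finset.sum_sdiff hJ1
    have hg' : κ (v + 1) ≤ g - s ∧ g - s ≤ κ (v + 1) + q := by omega
    have hJ1M : ∑ i ∈ J1, sz E (M i) ≤ sz E m * (g / q + 1) := by
      have h1 : q * ∑ i ∈ J1, sz E (M i) ≤ sz E m * s := by
        rw [hs, Finset.mul_sum, Finset.mul_sum]
        exact Finset.sum_le_sum fun i hi => hw i (hJ1 hi)
      have h2 : q * ∑ i ∈ J1, sz E (M i) ≤ q * (sz E m * (g / q + 1)) := by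
        calc q * ∑ i ∈ J1, sz E (M i) ≤ sz E m * s := h1
          _ ≤ sz E m * (q * (g / q + 1)) := Nat.mul_le_mul_left _ (by omega)
          _ = q * (sz E m * (g / q + 1)) := by ring
      exact Nat.le_of_mul_le_mul_left h2 hq0
    obtain ⟨u', a1, a2, a3, a4, a5, a6⟩ := ih J' (g - s) (by omega)
      (fun i hi => hM i (Finset.sdiff_subset hi)) (fun w w' h1 h2 h3 => hκ w w' h1 h2 (by omega))
      (fun h2 => (hκ v (v + 1) h2 (by omega) le_rfl).trans hg'.1) (by
        have h1 := hsplit fun i => sz E (M i)
        have h2 : sz E m * Ir E κ v (g - s) ≤ sz E m * Ir E κ v (κ (v + 1) + q) :=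
          Nat.mul_le_mul_left _ (Ir_mono E κ v hg'.2)
        rw [mul_add] at hI
        omega)
    have hu1 : ∀ i ∈ J1, (if i ∈ J1 then min (v + 1) (M i) else u' i) = min (v + 1) (M i) :=
      fun i hi => if_pos hi
    have hu2 : ∀ i ∈ J', (if i ∈ J1 then min (v + 1) (M i) else u' i) = u' i :=
      fun i hi => if_neg (Finset.mem_sdiff.1 hi).2
    refine ⟨fun i => if i ∈ J1 then min (v + 1) (M i) else u' i, ?_, ?_, ?_, ?_, ?_, ?_⟩
    · intro i
      simp only
      split_ifs
      · exact min_le_left _ _
      · exact (a1 i).trans (by omega)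
    · intro i hi
      simp only
      split_ifs with h
      · exact min_le_right _ _
      · exact a2 i (Finset.mem_sdiff.2 ⟨hi, h⟩)
    · intro i hi
      simp only
      rw [if_neg fun h => hi (hJ1 h)]
      exact a3 i fun h => hi (Finset.sdiff_subset h)
    · rw [← hsplit]
      have h1 : ∑ i ∈ J1, sz E (if i ∈ J1 then min (v + 1) (M i) else u' i) = s :=
        Finset.sum_congr rfl fun i hi => by rw [hu1 i hi]
      have h2 : ∑ i ∈ J', sz E (if i ∈ J1 then min (v + 1) (M i) else u' i) = g - s := by
        rw [← a4]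
        exact Finset.sum_congr rfl fun i hi => by rw [hu2 i hi]
      simp only
      rw [h1, h2]
      omega
    · intro w hw2 hwv
      rw [Finset.sum_filter, ← hsplit]
      have h1 : ∑ i ∈ J1, (if w ≤ (if i ∈ J1 then min (v + 1) (M i) else u' i) then
          sz E (if i ∈ J1 then min (v + 1) (M i) else u' i) else 0) ≤ s := by
        refine Finset.sum_le_sum fun i hi => ?_
        rw [hu1 i hi]
        split_ifs
        · exact le_rfl
        · exact Nat.zero_le _
      have h2 : ∑ i ∈ J', (if w ≤ (if i ∈ J1 then min (v + 1) (M i) else u' i) then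
          sz E (if i ∈ J1 then min (v + 1) (M i) else u' i) else 0) =
          ∑ i ∈ J'.filter (fun i => w ≤ u' i), sz E (u' i) := by
        rw [Finset.sum_filter]
        exact Finset.sum_congr rfl fun i hi => by rw [hu2 i hi]
      rcases Nat.lt_or_ge v w with h3 | h3
      · have h4 : w = v + 1 := by omega
        have h5 : J'.filter (fun i => w ≤ u' i) = ∅ := by
          refine Finset.filter_eq_empty_iff.2 fun i _ => ?_
          have := a1 i
          omega
        rw [h5, Finset.sum_empty] at h2
        simp only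
        rw [h2, h4]
        rw [h4] at h1
        omega
      · have h4 := a5 w hw2 h3
        simp only
        rw [h2]
        omega
    · beta_reduce
      have h1 : (J.filter fun i => (if i ∈ J1 then min (v + 1) (M i) else u' i) ≠ 0 ∧
          (if i ∈ J1 then min (v + 1) (M i) else u' i) ≠ M i) ⊆
          (J1.filter fun i => v + 1 < M i) ∪ (J'.filter fun i => u' i ≠ 0 ∧ u' i ≠ M i) := by
        intro i hi
        rw [Finset.mem_filter] at hi
        obtain ⟨hi1, hi2, hi3⟩ := hi
        rw [Finset.mem_union, Finset.mem_filter, Finset.mem_filter]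
        by_cases h : i ∈ J1
        · left
          rw [if_pos h] at hi3
          refine ⟨h, ?_⟩
          by_contra hcon
          exact hi3 (min_eq_right (by omega))
        · right
          rw [if_neg h] at hi2 hi3
          exact ⟨Finset.mem_sdiff.2 ⟨hi1, h⟩, hi2, hi3⟩
      have h2 : (J1.filter fun i => v + 1 < M i).card ≤ g / q := by
        rw [Nat.le_div_iff_mul_le hq0]
        calc (J1.filter fun i => v + 1 < M i).card * q = ∑ i ∈ J1.filter (fun i => v + 1 < M i), q := by
              rw [Finset.sum_const, smul_eq_mul]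
          _ ≤ ∑ i ∈ J1.filter (fun i => v + 1 < M i), f i := by
              refine Finset.sum_le_sum fun i hi => ?_
              rw [Finset.mem_filter] at hi
              exact sz_mono E (le_min le_rfl hi.2.le)
          _ ≤ s := Finset.sum_le_sum_of_subset (Finset.filter_subset _ _)
          _ ≤ g := by omega
      have h3 := Finset.card_le_card h1
      have h4 := Finset.card_union_le (J1.filter fun i => v + 1 < M i)
        (J'.filter fun i => u' i ≠ 0 ∧ u' i ≠ M i)
      have h5 := Ir_mono E κ v hg'.2
      omega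

end Pool.Agent.H40.FW
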